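import Pool.Agent.helper96.S5.SpecR

/-!
Row s5:MXB. Every position of the enumeration of the complement converges.
-/

set_option autoImplicit false

namespace S5

open PF

open Classical

theorem MXB_bv_mono {P Q : ℕ → Prop} (h : ∀ b, P b → Q b) (s : ℕ) : bv P s ≤ bv Q s := by
  induction s with
  | zero => exact le_refl _
  | succ s ih =>
    show (2 * bv P s + if P s then 1 else 0) ≤ 2 * bv Q s + if Q s then 1 else 0
    have h1 : (if P s then 1 else 0) ≤ (if Q s then 1 else 0) := by
      by_cases hp : P s
      · rw [if_pos hp, if_pos (h s hp)]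
      · rw [if_neg hp]
        exact Nat.zero_le _
    omega

theorem MXB_bv_lt (P : ℕ → Prop) (s : ℕ) : bv P s < 2 ^ s := by
  induction s with
  | zero => exact Nat.one_pos
  | succ s ih =>
    show (2 * bv P s + if P s then 1 else 0) < 2 ^ (s + 1)
    rw [pow_succ]
    have h1 : (if P s then 1 else 0) ≤ 1 := by
      split_ifs <;> omega
    omega

theorem MXB_est_mono (e x : ℕ) {s s' : ℕ} (h : s ≤ s') : est e x s ≤ est e x s' :=
  MXB_bv_mono (fun _ hb => Wst_mono h hb) (e + 1)

theorem MXB_row (hMXA : MXA_stmt) : MXB_stmt := by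
  obtain ⟨-, -, -, hact⟩ := hMXA
  intro e
  induction e using Nat.strong_induction_on with
  | _ e ih =>
    -- a stage after which the smaller positions are constant
    have hs0 : ∃ s0, ∀ s, s0 ≤ s → ∀ e' < e, mm (s + 1) e' = mm s e' := by
      have hg : ∀ n ≤ e, ∃ s0, ∀ s, s0 ≤ s → ∀ e' < n, mm (s + 1) e' = mm s e' := by
        intro n
        induction n with
        | zero => intro _; exact ⟨0, fun s _ e' he' => absurd he' (Nat.not_lt_zero _)⟩
        | succ n ihn =>
          intro hn
          obtain ⟨s1, h1⟩ := ihn (by omega)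
          obtain ⟨v, s2, h2⟩ := ih n (by omega)
          refine ⟨max s1 s2, ?_⟩
          intro s hs e' he'
          rcases Nat.lt_succ_iff_lt_or_eq.1 he' with h3 | h3
          · exact h1 s (le_trans (le_max_left _ _) hs) e' h3
          · subst h3
            have a1 := h2 s (le_trans (le_max_right _ _) hs)
            have a2 := h2 (s + 1) (le_trans (le_trans (le_max_right _ _) hs) (Nat.le_succ s))
            exact a2.trans a1.symm
      exact hg e (le_refl _)
    obtain ⟨s0, hs0⟩ := hs0
    have hstep : ∀ s, s0 ≤ s → mm (s + 1) e = mm s e ∨ est e (mm s e) s < est e (mm (s + 1) e) s := by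
      intro s hs
      rcases hact s with ⟨h1, -⟩ | ⟨e1, h1, h2, -, h4⟩
      · exact Or.inl (h1 e)
      · rcases lt_trichotomy e1 e with h5 | h5 | h5
        · have := hs0 s hs e1 h5
          omega
        · subst h5
          exact Or.inr h2
        · exact Or.inl (h1 e h5)
    by_contra hcon
    have hch : ∀ s1, s0 ≤ s1 → ∃ s, s1 ≤ s ∧ mm (s + 1) e ≠ mm s e := by
      intro s1 _
      by_contra hno
      push Not at hno
      apply hcon
      refine ⟨mm s1 e, s1, ?_⟩
      intro s hs
      induction s, hs using Nat.le_induction with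
      | base => rfl
      | succ s hs ihs => exact (hno s hs).trans ihs
    have hmono : ∀ s, s0 ≤ s → est e (mm s e) s ≤ est e (mm (s + 1) e) (s + 1) := by
      intro s hs
      have h2 := MXB_est_mono e (mm (s + 1) e) (Nat.le_succ s)
      rcases hstep s hs with h1 | h1
      · rw [h1] at h2 ⊢
        exact h2
      · exact h1.le.trans h2
    have hmono2 : ∀ s, s0 ≤ s → ∀ s', s ≤ s' → est e (mm s e) s ≤ est e (mm s' e) s' := by
      intro s hs s' hs'
      induction s', hs' using Nat.le_induction with
      | base => exact le_refl _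
      | succ s' hs' ihs => exact ihs.trans (hmono s' (hs.trans hs'))
    have hunb : ∀ n : ℕ, ∃ s, s0 ≤ s ∧ n ≤ est e (mm s e) s := by
      intro n
      induction n with
      | zero => exact ⟨s0, le_refl _, Nat.zero_le _⟩
      | succ n ihn =>
        obtain ⟨s, hs, hn⟩ := ihn
        obtain ⟨s', hs', hne⟩ := hch s hs
        have h1 := (hstep s' (hs.trans hs')).resolve_left hne
        have h2 := hmono2 s hs s' hs'
        have h3 : est e (mm (s' + 1) e) s' ≤ est e (mm (s' + 1) e) (s' + 1) :=
          MXB_est_mono e (mm (s' + 1) e) (Nat.le_succ s')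
        exact ⟨s' + 1, (hs.trans hs').trans (Nat.le_succ _), by omega⟩
    obtain ⟨s, -, hn⟩ := hunb (2 ^ (e + 1))
    have := MXB_bv_lt (fun b => Wst b s (mm s e)) (e + 1)
    exact absurd hn (not_le.2 this)

end S5
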