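import Pool.Agent.helper96.S5.SpecV

/-!
Row s5:RPX. Elements of the domain are represented by conditions.
-/

set_option autoImplicit false

namespace S5

open PF

open Classical

theorem RPX_row (hCNC : CNC_stmt) : RPX_stmt := by
  intro X p hp x x'
  constructor
  · intro hd
    have hfin := ((dm_iff hp x x').1 hd).2
    obtain ⟨a, ha⟩ := We_surj (P := fun z => z ∈ x.1 ∪ (X.sA \ (x.1 ∪ x'.1))) (re_fin_union x.2 hfin)
    obtain ⟨a', ha'⟩ := We_surj (P := fun z => z ∈ x'.1) x'.2
    refine ⟨pS a a', a, a', rfl, ?_, ?_, ?_⟩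
    · intro k t
      rw [ha, ha']
      by_cases h1 : Nat.pair k (X.f t) ∈ x'.1
      · exact Or.inr h1
      · left
        by_cases h2 : Nat.pair k (X.f t) ∈ x.1
        · exact Or.inl h2
        · right
          refine ⟨?_, fun h3 => h3.elim h2 h1⟩
          show (Nat.pair k (X.f t)).unpair.2 ∈ X.E
          rw [Nat.unpair_pair]
          exact ⟨t, rfl⟩
    · refine hfin.subset ?_
      rintro z (⟨h1, h2⟩ | ⟨h1, h2⟩)
      · exact absurd ((ha z).2 (Or.inl h1)) h2
      · exact ((ha z).1 h1).resolve_left h2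
    · have h3 : {z | We a' z} = x'.1 := by
        ext z
        exact ha' z
      rw [h3, symmDiff_self]
      exact Set.finite_empty
  · rintro i ⟨a, a', rfl, h1, -, -⟩ k
    exact ((hCNC X k).2.1 a a').2 (h1 k)

end S5
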